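import Pool.Agent.Helper58.FX.Defs2
import Pool.Agent.Helper58.FX.St.Stubs
import Pool.Agent.Helper28.FX.Meas

/-!
# CV-1: atoms of ergodic invariant measures
-/

set_option autoImplicit false
open MeasureTheory Filter Topology Helper17.LevelSets
open scoped InnerProductSpace ComplexConjugate ENNReal

namespace Pool.Agent.Helper52.FX

open Helper58.FX

/-- representative of minimal absolute value -/
lemma exists_rep (y : Tor) : ∃ t : ℝ, (t : Tor) = y ∧ |t| ≤ 1 / 2 ∧ ‖y‖ = |t| := by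
  obtain ⟨s, rfl⟩ := QuotientAddGroup.mk_surjective y
  refine ⟨s - round s, ?_, abs_sub_round s, ?_⟩
  · show ((s - round s : ℝ) : AddCircle (1 : ℝ)) = (s : AddCircle (1 : ℝ))
    rw [AddCircle.coe_sub]
    have : ((round s : ℝ) : AddCircle (1 : ℝ)) = 0 := by
      rw [AddCircle.coe_eq_zero_iff]
      exact ⟨round s, by simp⟩
    rw [this, sub_zero]
  · exact UnitAddCircle.norm_eq

lemma norm_two (y : Tor) (hy : ‖y‖ < 1 / 4) : ‖2 • y‖ = 2 * ‖y‖ := by
  obtain ⟨t, rfl, ht, hn⟩ := exists_rep y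
  rw [hn] at hy ⊢
  have h2 : (2 • (t : Tor)) = ((2 * t : ℝ) : Tor) := by
    rw [two_nsmul, two_mul]
    exact (AddCircle.coe_add _ _ _).symm
  rw [h2]
  have := (AddCircle.norm_coe_eq_abs_iff (x := 2 * t) (p := (1 : ℝ)) one_ne_zero).2 (by
    rw [abs_mul, abs_one, abs_two]; linarith)
  rw [this, abs_mul, abs_two]

lemma exists_large (x : Tor) (hx : x ≠ 0) : ∃ j : ℕ, 1 / 4 ≤ ‖(2 ^ j) • x‖ := by
  by_contra hcon
  have hlt : ∀ j : ℕ, ‖(2 ^ j) • x‖ < 1 / 4 := by
    intro j
    by_contra h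
    exact hcon ⟨j, not_lt.1 h⟩
  have hpow : ∀ j : ℕ, ‖(2 ^ j) • x‖ = 2 ^ j * ‖x‖ := by
    intro j
    induction j with
    | zero => simp
    | succ j ih =>
      rw [pow_succ', mul_smul, norm_two _ (hlt j), ih]
      ring
  have hpos : 0 < ‖x‖ := norm_pos_iff.2 hx
  obtain ⟨j, hj⟩ := pow_unbounded_of_one_lt (1 / ‖x‖) (by norm_num : (1 : ℝ) < 2)
  have h1 := hlt j
  rw [hpow j] at h1
  have h2 : 1 < 2 ^ j * ‖x‖ := by
    rwa [div_lt_iff₀ hpos] at hj
  linarith

lemma re_fourier_nonpos (y : Tor) (hy : 1 / 4 ≤ ‖y‖) : (fourier 1 y : ℂ).re ≤ 0 := by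
  obtain ⟨t, rfl, ht, hn⟩ := exists_rep y
  rw [hn] at hy
  rw [fourier_coe_apply]
  have e : (2 * (Real.pi : ℂ) * Complex.I * ((1 : ℤ) : ℂ) * (t : ℂ) / ((1 : ℝ) : ℂ)) =
      ((2 * Real.pi * t : ℝ) : ℂ) * Complex.I := by
    push_cast
    ring
  rw [e, Complex.exp_ofReal_mul_I_re, ← Real.cos_abs, abs_mul, abs_of_pos (by positivity)]
  apply Real.cos_nonpos_of_pi_div_two_le_of_le
  · nlinarith [Real.pi_pos]
  · nlinarith [Real.pi_pos]

lemma re_fourier_le (y : Tor) : (fourier 1 y : ℂ).re ≤ 1 :=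
  (Complex.re_le_norm _).trans (Helper91.TTT.norm_fourier_apply 1 y).le

variable {ν : Measure Tor} [IsProbabilityMeasure ν]

omit [IsProbabilityMeasure ν] in
lemma meas_le (h2 : MeasurePreserving (T 2) ν ν) (x : Tor) (j : ℕ) :
    ν {x} ≤ ν {(2 ^ j) • x} := by
  induction j with
  | zero => simp
  | succ j ih =>
    refine ih.trans ?_
    have h := h2.measure_preimage (s := {(2 ^ (j + 1)) • x})
      (measurableSet_singleton _).nullMeasurableSet
    rw [← h]
    refine measure_mono ?_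
    intro z hz
    rw [Set.mem_singleton_iff] at hz
    show 2 • z ∈ ({(2 ^ (j + 1)) • x} : Set Tor)
    rw [Set.mem_singleton_iff, hz, smul_smul, pow_succ']

lemma integral_one_sub : ∫ z, (1 - (fourier 1 z : ℂ).re) ∂ν = 1 - (ft ν 1).re := by
  have hi : Integrable (fun z : Tor => (fourier 1 z : ℂ)) ν :=
    Helper91.TTT.integrable_cont ν (fourier 1).continuous
  have h1 : ∫ z, (fourier 1 z : ℂ).re ∂ν = (ft ν 1).re := by
    have := integral_re (𝕜 := ℂ) hi
    simpa [ft] using this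
  have hr : Integrable (fun z : Tor => (fourier 1 z : ℂ).re) ν := hi.re
  rw [integral_sub (integrable_const _) hr, h1]
  simp

lemma atom_le (y : Tor) (hy : (fourier 1 y : ℂ).re ≤ 0) : ν.real {y} ≤ 1 - (ft ν 1).re := by
  have hi : Integrable (fun z : Tor => (fourier 1 z : ℂ)) ν :=
    Helper91.TTT.integrable_cont ν (fourier 1).continuous
  rw [← integral_one_sub]
  have h1 : ν.real {y} = ∫ z, ({y} : Set Tor).indicator (fun _ => (1 : ℝ)) z ∂ν := by
    rw [integral_indicator_const (1 : ℝ) (measurableSet_singleton y)]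
    simp
  rw [h1]
  refine integral_mono ?_ ((integrable_const _).sub hi.re) fun z => ?_
  · exact (integrable_const (1 : ℝ)).indicator (measurableSet_singleton y)
  · by_cases hz : z = y
    · subst hz
      simp only [Set.mem_singleton_iff, Set.indicator_of_mem]
      show (1 : ℝ) ≤ 1 - (fourier 1 z : ℂ).re
      linarith
    · rw [Set.indicator_of_notMem (by simpa using hz)]
      show (0 : ℝ) ≤ 1 - (fourier 1 z : ℂ).re
      linarith [re_fourier_le z]

lemma zero_or_one (h2 : MeasurePreserving (T 2) ν ν) (h3 : MeasurePreserving (T 3) ν ν)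
    (hE : Erg (ft ν)) : ν {(0 : Tor)} = 0 ∨ ∀ᵐ z ∂ν, z = 0 := by
  set A : Set Tor := {0} with hA
  have hAm : MeasurableSet A := measurableSet_singleton _
  let v : Lp ℂ 2 ν := indicatorConstLp 2 hAm (measure_ne_top ν A) (1 : ℂ)
  have hv : (v : Tor → ℂ) =ᵐ[ν] A.indicator fun _ => (1 : ℂ) := indicatorConstLp_coeFn
  have hpre : ∀ (n : ℕ), MeasurePreserving (T n) ν ν → (T n ⁻¹' A : Set Tor) =ᵐ[ν] A := by
    intro n h
    have h1 : A ⊆ T n ⁻¹' A := by
      intro x hx
      rw [hA, Set.mem_singleton_iff] at hx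
      show n • x ∈ A
      rw [hx, smul_zero]
      exact rfl
    exact (ae_eq_of_subset_of_measure_ge h1 (h.measure_preimage hAm.nullMeasurableSet).le
      hAm.nullMeasurableSet (measure_ne_top _ _)).symm
  have hinv : ∀ (n : ℕ) (h : MeasurePreserving (T n) ν ν), UU h v = v := by
    intro n h
    apply Lp.ext
    have e1 : (UU h v : Tor → ℂ) =ᵐ[ν] (v : Tor → ℂ) ∘ T n :=
      Lp.coeFn_compMeasurePreserving v h
    have e2 : (v : Tor → ℂ) ∘ T n =ᵐ[ν] (A.indicator fun _ => (1 : ℂ)) ∘ T n :=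
      h.quasiMeasurePreserving.ae_eq_comp hv
    have e3 : (A.indicator fun _ => (1 : ℂ)) ∘ T n = (T n ⁻¹' A).indicator fun _ => (1 : ℂ) := rfl
    have e4 : (T n ⁻¹' A).indicator (fun _ => (1 : ℂ)) =ᵐ[ν] A.indicator fun _ => (1 : ℂ) :=
      indicator_ae_eq_of_ae_eq_set (hpre n h)
    rw [e3] at e2
    exact e1.trans (e2.trans (e4.trans hv.symm))
  obtain ⟨c, hc⟩ := St.const_of_inv h2 h3 hE v (hinv 2 h2) (hinv 3 h3)
  have h7 : ∀ᵐ x ∂ν, A.indicator (fun _ => (1 : ℂ)) x = c := by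
    have e1 : (v : Tor → ℂ) =ᵐ[ν] c • (ev ν 0 : Tor → ℂ) := by
      rw [hc]
      exact Lp.coeFn_smul c (ev ν 0)
    filter_upwards [hv, e1, St.ev_coe (μ := ν) 0] with x a1 a2 a3
    rw [← a1, a2, Pi.smul_apply, a3]
    simp
  by_cases hc1 : c = 1
  · right
    rw [hc1] at h7
    filter_upwards [h7] with x hx
    by_contra hxA
    have hxA' : x ∉ A := fun h => hxA (Set.mem_singleton_iff.1 h)
    rw [Set.indicator_of_notMem hxA'] at hx
    exact zero_ne_one hx
  · left
    rw [measure_eq_zero_iff_ae_notMem]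
    filter_upwards [h7] with x hx hxA
    rw [Set.indicator_of_mem hxA] at hx
    exact hc1 hx.symm

/-- CV-1 -/
theorem atom_bound {f : ℤ → ℂ} (hf : IPD f) (hE : Erg f) (hne : f ≠ fun _ => 1)
    {ν : Measure Helper58.FX.Tor} [IsProbabilityMeasure ν] (hν : ∀ n, ft ν n = f n)
    (x : Helper58.FX.Tor) : ν.real {x} ≤ 1 - (f 1).re := by
  have hfν : ft ν = f := funext hν
  have h2 : MeasurePreserving (T 2) ν ν := Helper28.FX.mp_of_ft 2 fun n => by
    rw [hν, hν]; exact_mod_cast hf.two n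
  have h3 : MeasurePreserving (T 3) ν ν := Helper28.FX.mp_of_ft 3 fun n => by
    rw [hν, hν]; exact_mod_cast hf.three n
  have hEν : Erg (ft ν) := by rw [hfν]; exact hE
  rw [← hν 1]
  by_cases hx : x = 0
  · subst hx
    rcases zero_or_one h2 h3 hEν with h | h
    · rw [measureReal_def, h]
      have h1 : (0 : ℝ) ≤ ∫ z, (1 - (fourier 1 z : ℂ).re) ∂ν :=
        integral_nonneg fun z => sub_nonneg.2 (re_fourier_le z)
      rw [integral_one_sub] at h1
      simpa using h1
    · exfalso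
      apply hne
      funext n
      rw [← hν n, ft]
      have : ∀ᵐ z ∂ν, (fourier n z : ℂ) = 1 := by
        filter_upwards [h] with z hz
        rw [hz, fourier_eval_zero]
      rw [integral_congr_ae this]
      simp
  · obtain ⟨j, hj⟩ := exists_large x hx
    refine le_trans ?_ (atom_le ((2 ^ j) • x) (re_fourier_nonpos _ hj))
    exact ENNReal.toReal_mono (measure_ne_top _ _) (meas_le h2 x j)

end Pool.Agent.Helper52.FX
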